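import Pool.Agent.Run7.h444.LTR.M

/-!
# The kinetic inequality in `ℝ³` in the symmetry sectors of a rotation about an axis

Let `R` be the rotation by `2π / q`, `q ≥ 3`, about the third axis of `ℝ³`, and let
`u_1, …, u_N ∈ H¹(ℝ³)` be orthonormal with `u_i(R x) = e^{2πir/q} u_i(x)`, `0 < |r| ≤ q / 2`.
Nothing else is assumed about the functions. The kinetic inequality holds for these systems with
`C r = (625/243)^(1/3) 3r² / (3r² + 1) ≥ 1.0275` times the semiclassical constant `K_3^c`, and with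
`4^(1/3) C r` times it, if the functions are in addition odd in the third coordinate. In the dual
form the negative part of the energy `∑ ∫ |∇u_i|² - V |u_i|²` is at most `C r ^ (-3/2)` times,
and for the odd functions half of `C r ^ (-3/2)` times the semiclassical value
`L^c_{1,3} ∫ V^(5/2)`, for all potentials `V ≥ 0` in `L^(5/2)` (which need not be symmetric).
-/

set_option autoImplicit false

open MeasureTheory

namespace Pool.Agent.Results.MP_3242df_mp.AxisSectors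

/-- The partial derivative `∂_k φ` of a function on `ℝ³`. -/
noncomputable def pder (k : Fin 3) (φ : (Fin 3 → ℝ) → ℝ) (x : Fin 3 → ℝ) : ℝ :=
  fderiv ℝ φ x (Pi.single k 1)

/-- `u` belongs to the Sobolev space `H¹(ℝ³; ℂ)` and has the weak partial derivatives `g k`:
`u` and all `g k` are in `L²(ℝ³)`, and `∫ u ∂_k φ = - ∫ g_k φ` for every real test function
`φ ∈ C_c^∞(ℝ³)`. -/
structure IsSobolev (u : (Fin 3 → ℝ) → ℂ) (g : Fin 3 → (Fin 3 → ℝ) → ℂ) : Prop where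
  memLp : MemLp u 2 volume
  memLp_deriv : ∀ k, MemLp (g k) 2 volume
  weak : ∀ k (φ : (Fin 3 → ℝ) → ℝ), ContDiff ℝ (⊤ : ℕ∞) φ → HasCompactSupport φ →
    ∫ x, u x * (pder k φ x : ℂ) = - ∫ x, g k x * (φ x : ℂ)

/-- The density `ρ = ∑ |u_n|²`. -/
noncomputable def density {N : ℕ} (u : Fin N → (Fin 3 → ℝ) → ℂ) (x : Fin 3 → ℝ) : ℝ :=
  ∑ n, ‖u n x‖ ^ 2

/-- The kinetic energy `∑ ∫ |∇ u_n|²`. -/
noncomputable def kinetic {N : ℕ} (g : Fin N → Fin 3 → (Fin 3 → ℝ) → ℂ) : ℝ :=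
  ∑ n, ∑ k, ∫ x, ‖g n k x‖ ^ 2

/-- The semiclassical constant `K_3^c = (3/5) (6 π²) ^ (2/3)`. -/
noncomputable def Kc : ℝ := 3 / 5 * (6 * Real.pi ^ 2) ^ ((2 : ℝ) / 3)

/-- The semiclassical constant `L^c_{1,3} = 1 / (15 π²)`. -/
noncomputable def Lc : ℝ := 1 / (15 * Real.pi ^ 2)

/-- The rotation by the angle `θ` about the third axis. -/
noncomputable def turn (θ : ℝ) (x : Fin 3 → ℝ) : Fin 3 → ℝ :=
  ![Real.cos θ * x 0 - Real.sin θ * x 1, Real.sin θ * x 0 + Real.cos θ * x 1, x 2]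

/-- The mirror image in the plane `x_3 = 0`. -/
def mirror (x : Fin 3 → ℝ) : Fin 3 → ℝ := ![x 0, x 1, -x 2]

/-- The factor `C r = (625/243)^(1/3) 3r² / (3r² + 1)`. -/
noncomputable def C (r : ℤ) : ℝ :=
  (625 / 243) ^ ((1 : ℝ) / 3) * (3 * (r : ℝ) ^ 2 / (3 * (r : ℝ) ^ 2 + 1))

/-- The functions `u_n` are orthonormal, they are in `H¹(ℝ³)` with the weak gradients `g_n`, and
`u_n(R x) = e^{2πir/q} u_n(x)` for almost all `x`, where `R` is the rotation by `2π / q` about the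
third axis. -/
structure Sector (q : ℕ) (r : ℤ) {N : ℕ} (u : Fin N → (Fin 3 → ℝ) → ℂ)
    (g : Fin N → Fin 3 → (Fin 3 → ℝ) → ℂ) : Prop where
  sobolev : ∀ n, IsSobolev (u n) (g n)
  orthonormal : ∀ n m, ∫ x, (starRingEnd ℂ) (u n x) * u m x = if n = m then 1 else 0
  sector : ∀ n, ∀ᵐ x, u n (turn (2 * Real.pi / q) x) =
    Complex.exp (2 * Real.pi * Complex.I * r / q) * u n x

/-- The kinetic inequality with `c` times the semiclassical constant for the system `u`, and its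
dual form for all potentials `V ≥ 0` in `L^(5/2)(ℝ³)`. -/
def Holds (c : ℝ) {N : ℕ} (u : Fin N → (Fin 3 → ℝ) → ℂ)
    (g : Fin N → Fin 3 → (Fin 3 → ℝ) → ℂ) : Prop :=
  Integrable (fun x => density u x ^ ((5 : ℝ) / 3)) ∧
  c * Kc * ∫ x, density u x ^ ((5 : ℝ) / 3) ≤ kinetic g ∧
  ∀ V : (Fin 3 → ℝ) → ℝ, Measurable V → (∀ x, 0 ≤ V x) →
    Integrable (fun x => V x ^ ((5 : ℝ) / 2)) →
    Integrable (fun x => V x * density u x) ∧
    -(c ^ (-(3 / 2) : ℝ) * Lc * ∫ x, V x ^ ((5 : ℝ) / 2)) ≤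
      kinetic g - ∫ x, V x * density u x

theorem Kc_nonneg : 0 ≤ Kc := by
  unfold Kc
  positivity

theorem Kcl_eq : LTd.Kcl 3 = Kc := by
  have hπ := Real.pi_pos
  have hv : (volume (Metric.ball (0 : EuclideanSpace ℝ (Fin 3)) 1)).toReal = Real.pi * 4 / 3 := by
    rw [EuclideanSpace.volume_ball_fin_three]
    simp only [ENNReal.ofReal_one, one_pow, one_mul]
    exact ENNReal.toReal_ofReal (by positivity)
  unfold LTd.Kcl Kc
  rw [hv]
  have h1 : (6 * Real.pi ^ 2 : ℝ) = (2 * Real.pi) ^ 3 / (Real.pi * 4 / 3) := by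
    field_simp
    ring
  have h2 : (((2 * Real.pi) ^ 3 : ℝ)) ^ ((2 : ℝ) / 3) = (2 * Real.pi) ^ 2 := by
    rw [← Real.rpow_natCast, ← Real.rpow_mul (by positivity), ← Real.rpow_natCast]
    norm_num
  have h3 : ((2 * Real.pi) ^ 3 / (Real.pi * 4 / 3) : ℝ) ^ ((2 : ℝ) / 3) =
      (2 * Real.pi) ^ 2 / (Real.pi * 4 / 3) ^ ((2 : ℝ) / 3) := by
    rw [Real.div_rpow (by positivity) (by positivity), h2]
  rw [h1, h3]
  norm_num

theorem young {c V ρ : ℝ} (hc : 0 < c) (hV : 0 ≤ V) (hρ : 0 ≤ ρ) :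
    V * ρ ≤ c * Kc * ρ ^ ((5 : ℝ) / 3) + c ^ (-(3 / 2) : ℝ) * Lc * V ^ ((5 : ℝ) / 2) := by
  have hπ := Real.pi_pos
  set B : ℝ := (6 * Real.pi ^ 2) ^ ((2 : ℝ) / 3) with hB
  have hB0 : 0 < B := by positivity
  set A : ℝ := c * B with hA
  have hA0 : 0 < A := by positivity
  set l : ℝ := A ^ ((3 : ℝ) / 5) with hl
  have hl0 : 0 < l := by positivity
  have h := Real.young_inequality_of_nonneg (a := V / l) (b := l * ρ) (p := 5 / 2) (q := 5 / 3)
    (by positivity) (by positivity)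
    (Real.holderConjugate_iff.mpr ⟨by norm_num, by norm_num⟩)
  have e1 : V / l * (l * ρ) = V * ρ := by field_simp
  have e2 : (l * ρ) ^ ((5 : ℝ) / 3) = A * ρ ^ ((5 : ℝ) / 3) := by
    rw [Real.mul_rpow hl0.le hρ, hl, ← Real.rpow_mul hA0.le]
    norm_num
  have e3 : (V / l) ^ ((5 : ℝ) / 2) = A ^ (-(3 / 2) : ℝ) * V ^ ((5 : ℝ) / 2) := by
    rw [Real.div_rpow hV hl0.le, hl, ← Real.rpow_mul hA0.le, Real.rpow_neg hA0.le]
    norm_num
    rw [div_eq_inv_mul]
  have e4 : A ^ (-(3 / 2) : ℝ) = c ^ (-(3 / 2) : ℝ) * (6 * Real.pi ^ 2)⁻¹ := by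
    rw [hA, Real.mul_rpow hc.le hB0.le, hB, ← Real.rpow_mul (by positivity)]
    congr 1
    rw [show ((2 : ℝ) / 3 * (-(3 / 2) : ℝ)) = -1 by norm_num, Real.rpow_neg_one]
  rw [e1, e2, e3, e4] at h
  refine h.trans (le_of_eq ?_)
  unfold Kc Lc
  rw [← hB, hA]
  field_simp
  ring

theorem density_nonneg {N : ℕ} (u : Fin N → (Fin 3 → ℝ) → ℂ) (x : Fin 3 → ℝ) :
    0 ≤ density u x := Finset.sum_nonneg fun _ _ => by positivity

theorem holds_of {c : ℝ} (hc : 0 < c) {N : ℕ} (u : Fin N → (Fin 3 → ℝ) → ℂ)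
    (g : Fin N → Fin 3 → (Fin 3 → ℝ) → ℂ) (hm : AEStronglyMeasurable (density u) volume)
    (hi : Integrable (fun x => density u x ^ ((5 : ℝ) / 3)))
    (h : c * Kc * ∫ x, density u x ^ ((5 : ℝ) / 3) ≤ kinetic g) : Holds c u g := by
  refine ⟨hi, h, fun V hVm hV0 hVi => ?_⟩
  have hb : Integrable (fun x => c * Kc * density u x ^ ((5 : ℝ) / 3) +
      c ^ (-(3 / 2) : ℝ) * Lc * V x ^ ((5 : ℝ) / 2)) := (hi.const_mul _).add (hVi.const_mul _)
  have hVρ : Integrable (fun x => V x * density u x) := by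
    refine hb.mono' (hVm.aestronglyMeasurable.mul hm) (Filter.Eventually.of_forall fun x => ?_)
    rw [Real.norm_eq_abs, abs_of_nonneg (mul_nonneg (hV0 x) (density_nonneg u x))]
    exact young hc (hV0 x) (density_nonneg u x)
  refine ⟨hVρ, ?_⟩
  have h1 : ∫ x, V x * density u x ≤ ∫ x, (c * Kc * density u x ^ ((5 : ℝ) / 3) +
      c ^ (-(3 / 2) : ℝ) * Lc * V x ^ ((5 : ℝ) / 2)) :=
    integral_mono hVρ hb fun x => young hc (hV0 x) (density_nonneg u x)
  rw [integral_add (hi.const_mul _) (hVi.const_mul _), integral_const_mul,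
    integral_const_mul] at h1
  linarith

theorem turn_eq (θ : ℝ) (x : Fin 3 → ℝ) : turn θ x = Run7.h444.LTR.rot (n := 1) θ x := by
  funext i
  fin_cases i <;> simp [turn, Run7.h444.LTR.rot]

theorem mirror_eq (x : Fin 3 → ℝ) : mirror x = Pool.Agent.R282.KO.refl 2 x := by
  funext i
  fin_cases i <;> simp [mirror, Pool.Agent.R282.KO.refl]

theorem C_ge {r : ℤ} (hr0 : r ≠ 0) : 411 / 400 ≤ C r := by
  have h1 : (1 : ℝ) ≤ (r : ℝ) ^ 2 := by
    have : 1 ≤ r ^ 2 := by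
      have := Int.one_le_abs hr0
      nlinarith [sq_abs r]
    exact_mod_cast this
  have h2 : (137 / 100 : ℝ) ≤ (625 / 243) ^ (1 / 3 : ℝ) := by
    have h4 : ((137 / 100 : ℝ) ^ (3 : ℝ)) ^ (1 / 3 : ℝ) = 137 / 100 := by
      rw [← Real.rpow_mul (by norm_num)]
      norm_num
    rw [← h4]
    refine Real.rpow_le_rpow (by positivity) ?_ (by norm_num)
    rw [show (3 : ℝ) = ((3 : ℕ) : ℝ) by norm_num, Real.rpow_natCast]
    norm_num
  have h3 : (3 / 4 : ℝ) ≤ 3 * (r : ℝ) ^ 2 / (3 * (r : ℝ) ^ 2 + 1) := by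
    rw [div_le_div_iff₀ (by norm_num) (by positivity)]
    linarith
  unfold C
  calc (411 / 400 : ℝ) = 137 / 100 * (3 / 4) := by norm_num
    _ ≤ _ := mul_le_mul h2 h3 (by norm_num) (by positivity)

/-- For the systems in a sector `r ≠ 0`, `2 |r| ≤ q`, of the rotation by `2π / q`, `q ≥ 3`, about an
axis, the kinetic inequality in `ℝ³` and its dual form hold with `C r` times the semiclassical
constant, and with `4^(1/3) C r` times it, if the functions are odd in the third coordinate; and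
`C r ≥ 1.0275`. -/
theorem result (q : ℕ) (hq : 3 ≤ q) (r : ℤ) (hr0 : r ≠ 0) (hr : 2 * |r| ≤ q) :
    411 / 400 ≤ C r ∧
    ∀ (N : ℕ) (u : Fin N → (Fin 3 → ℝ) → ℂ) (g : Fin N → Fin 3 → (Fin 3 → ℝ) → ℂ),
      Sector q r u g →
      Holds (C r) u g ∧
      ((∀ n, ∀ᵐ x, u n (mirror x) = -u n x) → Holds (4 ^ ((1 : ℝ) / 3) * C r) u g) := by
  refine ⟨C_ge hr0, fun N u g hs => ?_⟩
  have hC0 : 0 < C r := lt_of_lt_of_le (by norm_num) (C_ge hr0)
  have hu : ∀ i, LTd.WGradC (u i) (g i) := fun i =>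
    ⟨(hs.sobolev i).1, (hs.sobolev i).2, (hs.sobolev i).3⟩
  have hsub := Pool.Agent.R282.KO.sub_of_ortho u (fun i => (hu i).f2) hs.orthonormal
  have e1 : (1 + 2 / ((1 + 2 : ℕ) : ℝ)) = (5 : ℝ) / 3 := by norm_num
  have e2 : (1 / ((1 + 2 : ℕ) : ℝ)) = (1 : ℝ) / 3 := by norm_num
  have e3 : (1 + 2 / ((3 : ℕ) : ℝ)) = (5 : ℝ) / 3 := by norm_num
  have hi : Integrable (fun x => density u x ^ ((5 : ℝ) / 3)) := by
    have := (Pool.Agent.R282.KO.sub_thm 3 (by norm_num) N u g hu hsub).1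
    rwa [e3] at this
  have hm : AEStronglyMeasurable (density u) volume := by
    have : Integrable (density u) := by
      unfold density
      exact integrable_finsetSum _ fun i _ => (hu i).f2.integrable_norm_pow two_ne_zero
    exact this.1
  have hexp : Complex.exp (2 * Real.pi * ((r / q : ℝ) : ℂ) * Complex.I) =
      Complex.exp (2 * Real.pi * Complex.I * r / q) := by
    congr 1
    push_cast
    ring
  have hsec : ∀ i, ∀ᵐ x, u i (Run7.h444.LTR.rot (n := 1) (2 * Real.pi / q) x) =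
      Complex.exp (2 * Real.pi * ((r / q : ℝ) : ℂ) * Complex.I) * u i x := by
    intro i
    filter_upwards [hs.sector i] with x hx
    rw [hexp, ← hx, turn_eq]
  refine ⟨holds_of hC0 u g hm hi ?_, fun hodd => holds_of (by positivity) u g hm hi ?_⟩
  · have h := Run7.h444.LTR.final2 (n := 1) (by norm_num) hq hr0 hr u g hu hsub hsec
    rw [e1, e2] at h
    have h' : (625 / 243) ^ ((1 : ℝ) / 3) * (3 * (r : ℝ) ^ 2 / (3 * (r : ℝ) ^ 2 + 1)) *
        LTd.Kcl 3 * ∫ x, density u x ^ ((5 : ℝ) / 3) ≤ kinetic g := h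
    rwa [Kcl_eq] at h'
  · have h := Run7.h444.LTR.classStep (d := 3)
      (fun N u => ∀ i, ∀ᵐ x, u i (Run7.h444.LTR.rot (n := 1) (2 * Real.pi / q) x) =
        Complex.exp (2 * Real.pi * ((r / q : ℝ) : ℂ) * Complex.I) * u i x) 2
      (fun N u σ hC i => by
        filter_upwards [hC i] with x hx
        have e5 : Pool.Agent.R282.KO.mul σ 2 (Run7.h444.LTR.rot (n := 1) (2 * Real.pi / q) x) =
            Pool.Agent.R282.KO.mul σ 2 x := by
          unfold Pool.Agent.R282.KO.mul Run7.h444.LTR.rot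
          simp
        rw [hx, e5]
        ring)
      (C r * Kc)
      (fun N u g hu hsub hsec => by
        have h := Run7.h444.LTR.final2 (n := 1) (by norm_num) hq hr0 hr u g hu hsub hsec
        rw [e1, e2] at h
        have h' : (625 / 243) ^ ((1 : ℝ) / 3) * (3 * (r : ℝ) ^ 2 / (3 * (r : ℝ) ^ 2 + 1)) *
            LTd.Kcl 3 * ∫ x, Pool.Agent.R282.KO.rho u x ^ ((5 : ℝ) / 3) ≤
            Pool.Agent.R282.KO.kin g := h
        rw [Kcl_eq] at h'
        rw [e3]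
        exact h')
      N u g hu hsub hsec (fun i => by
        filter_upwards [hodd i] with x hx
        rw [← mirror_eq, hx])
    rw [e3] at h
    have e6 : (2 : ℝ) ^ (2 / ((3 : ℕ) : ℝ)) = 4 ^ ((1 : ℝ) / 3) := by
      rw [show (4 : ℝ) = 2 ^ (2 : ℝ) by norm_num, ← Real.rpow_mul (by norm_num)]
      norm_num
    rw [e6] at h
    refine le_trans (le_of_eq ?_) h
    show 4 ^ ((1 : ℝ) / 3) * C r * Kc * _ = 4 ^ ((1 : ℝ) / 3) * (C r * Kc) * _
    rw [mul_assoc (4 ^ ((1 : ℝ) / 3) : ℝ) (C r) Kc]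
    rfl

end Pool.Agent.Results.MP_3242df_mp.AxisSectors
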